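import Pool.Agent.Helper20.EQ.St1
import Pool.Agent.Helper4.LM.M_BBC
import Pool.Agent.Helper29.LM.M_PH

/-!
# Project EQ, module MXJ
-/

set_option autoImplicit false

open MeasureTheory Set Filter Topology
open scoped ENNReal RealInnerProductSpace

namespace Pool.Agent.Helper29.EQ

open Pool.Agent.Helper68.LM (Pl BB Bd Av HL ft fm DQ StBBC)
open Pool.Agent.Helper20.RG Pool.Agent.Helper20.EQ

theorem bbc_MXJ : StBBC := Pool.Agent.Helper4.LM.hBBC Pool.Agent.Helper29.LM.hPH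

theorem bd_bx_MXJ (hPT : StPT) : Bd 1 1 bx := by
  obtain ⟨-, -, h3, -, -, -, -, h8⟩ := hPT
  refine ⟨?_, ?_⟩
  · unfold bx
    rw [Measure.restrict_apply (Metric.isClosed_closedBall.measurableSet.compl)]
    have : (Metric.closedBall (0 : Pl) 1)ᶜ ∩ Sq 0 (1 / 2) = ∅ := by
      rw [Set.eq_empty_iff_forall_notMem]
      rintro y ⟨hy1, hy2⟩
      apply hy1
      rw [mem_closedBall_zero_iff]
      have e1 : |y 0| ≤ 1 / 2 := by
        have := hy2.1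
        simpa using this
      have e2 : |y 1| ≤ 1 / 2 := by
        have := hy2.2
        simpa using this
      have := (h3 y).2.2.1
      linarith
    rw [this, measure_empty]
  · unfold bx
    rw [Measure.restrict_apply MeasurableSet.univ, Set.univ_inter, (h8 0 (1 / 2) (by norm_num)).2]
    norm_num

/-- Linearity of the averages. -/
theorem Av_sub_MXJ (ν : Measure Pl) (hν : Bd 1 1 ν) (t : ℝ) (A B : Pl → ℝ) (hA : BB A) (hB : BB B) (x : Pl) :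
    Av ν t (fun y => A y - B y) x = Av ν t A x - Av ν t B x := by
  have h1 := bbc_MXJ.1 A B hA hB
  have h2 := bbc_MXJ.2.2.2.2.2.2 ν 1 1 t (fun y => A y - B y) B x hν h1 hB
  have h3 : (fun y => (fun y => A y - B y) y + B y) = A := by
    funext y; simp
  rw [h3] at h2
  linarith

theorem hMXJ (hPT : StPT) (hMXL : StMXL) (hKD : StKD) (hSGE : StSGE) : StMXJ := by
  obtain ⟨C1, hC1, hM⟩ := hMXL
  obtain ⟨C2, hC2, -, hK⟩ := hKD
  obtain ⟨hS1, -, hS3⟩ := hSGE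
  refine ⟨C1 * C2 ^ 2, by positivity, ?_⟩
  intro s c m m' V k g hs hmm hg
  have hE : ‖E s‖ ≤ 2 := by
    have h := (hPT.2.2.1 (E s)).2.2.1
    have e0 : (E s) 0 = 1 := (hPT.1 1 s).1
    have e1 : (E s) 1 = s := (hPT.1 1 s).2
    rw [e0, e1] at h
    rw [abs_one] at h
    linarith
  have hbx := bd_bx_MXJ hPT
  have hsg : Bd 1 1 (sge (E s)) := (hS1 (E s) hE).1
  set l : ℝ := (2 : ℝ) ^ k with hl
  have hl0 : 0 < l := by positivity
  have hA : BB (Av bx (2 * (2 : ℝ) ^ (k - (m : ℤ))) g) := bbc_MXJ.2.2.1 bx 1 1 _ g hbx (by positivity) hg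
  have hB : BB (Av bx (2 * (2 : ℝ) ^ (k - (m' : ℤ))) g) := bbc_MXJ.2.2.1 bx 1 1 _ g hbx (by positivity) hg
  set h : Pl → ℝ := fun x => Av bx (2 * (2 : ℝ) ^ (k - (m : ℤ))) g x - Av bx (2 * (2 : ℝ) ^ (k - (m' : ℤ))) g x with hh
  have hBh : BB h := bbc_MXJ.1 _ _ hA hB
  have hZ : ∀ (r : ℝ) (x : Pl), Z s c m m' r k g x = Av (sge (E s)) (l * r) h (x - l • c) := by
    intro r x
    rw [hh, Av_sub_MXJ _ hsg _ _ _ hA hB, ← hS3 s]
    rfl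
  have hMD : ∀ x : Pl, MD s c m m' V k g x = (Finset.range (V + 1)).sup fun w =>
      ‖Av (sge (E s)) ((2 : ℝ) ^ w * l) h (x - l • c) - Av (sge (E s)) l h (x - l • c)‖ₑ := by
    intro x
    unfold MD
    apply Finset.sup_congr rfl
    intro w _
    rw [hZ, hZ, pow_zero, mul_one, mul_comm l]
  have hI : ∫⁻ x, MD s c m m' V k g x ^ 2 = ∫⁻ x, ((Finset.range (V + 1)).sup fun w =>
      ‖Av (sge (E s)) ((2 : ℝ) ^ w * l) h x - Av (sge (E s)) l h x‖ₑ) ^ 2 := by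
    rw [← lintegral_sub_right_eq_self (fun x => ((Finset.range (V + 1)).sup fun w =>
      ‖Av (sge (E s)) ((2 : ℝ) ^ w * l) h x - Av (sge (E s)) l h x‖ₑ) ^ 2) (l • c)]
    apply lintegral_congr
    intro x
    rw [hMD x]
  rw [hI]
  refine le_trans (hM (E s) h l V hE hBh hl0) ?_
  apply lintegral_mono
  intro ξ
  beta_reduce
  by_cases hξ : ξ = 0
  · subst hξ
    simp
  · have hk := hK m m' k g ξ hmm hg hξ
    have e1 : |⟪E s, l • ξ⟫| = l * |⟪E s, ξ⟫| := by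
      rw [real_inner_smul_right, abs_mul, abs_of_pos hl0]
    have hfth : ‖ft h ξ‖ ≤ C2 * (min 1 (‖l • ξ‖ * (2 : ℝ) ^ (-(m' : ℤ))) * min 1 ((2 : ℝ) ^ m / ‖l • ξ‖)) *
        ‖ft g ξ‖ := hk
    set M : ℝ := min 1 (‖l • ξ‖ * (2 : ℝ) ^ (-(m' : ℤ))) * min 1 ((2 : ℝ) ^ m / ‖l • ξ‖) with hMdef
    have hM0 : 0 ≤ M := by positivity
    have hM1 : M ≤ 1 := by
      rw [hMdef]
      have a1 : min 1 (‖l • ξ‖ * (2 : ℝ) ^ (-(m' : ℤ))) ≤ 1 := min_le_left _ _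
      have a2 : min 1 ((2 : ℝ) ^ m / ‖l • ξ‖) ≤ 1 := min_le_left _ _
      have a3 : 0 ≤ min 1 (‖l • ξ‖ * (2 : ℝ) ^ (-(m' : ℤ))) := by positivity
      have a4 : 0 ≤ min 1 ((2 : ℝ) ^ m / ‖l • ξ‖) := by positivity
      exact mul_le_one₀ a1 a4 a2
    set Φ : ℝ := min 1 ((2 : ℝ) ^ V * (l * |⟪E s, ξ⟫|)) * (1 / (1 + l * |⟪E s, ξ⟫|)) with hΦ
    have hΦ0 : 0 ≤ Φ := by positivity
    have hPsi : Psi s m m' V (l • ξ) = M * Φ := by
      unfold Psi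
      rw [e1]
    rw [hPsi]
    have hsq : ‖ft h ξ‖ₑ ^ 2 ≤ ENNReal.ofReal (C2 ^ 2 * M) * ‖ft g ξ‖ₑ ^ 2 := by
      have b1 : ‖ft h ξ‖ ^ 2 ≤ (C2 ^ 2 * M) * ‖ft g ξ‖ ^ 2 := by
        have b2 : ‖ft h ξ‖ ^ 2 ≤ (C2 * M * ‖ft g ξ‖) ^ 2 := pow_le_pow_left₀ (norm_nonneg _) hfth 2
        have b3 : (C2 * M * ‖ft g ξ‖) ^ 2 = C2 ^ 2 * (M * M) * ‖ft g ξ‖ ^ 2 := by ring
        have b4 : M * M ≤ M := by nlinarith
        have b5 : C2 ^ 2 * (M * M) * ‖ft g ξ‖ ^ 2 ≤ C2 ^ 2 * M * ‖ft g ξ‖ ^ 2 := by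
          gcongr
        linarith
      have c1 : ‖ft h ξ‖ₑ ^ 2 = ENNReal.ofReal (‖ft h ξ‖ ^ 2) := by
        rw [← ofReal_norm, ENNReal.ofReal_pow (norm_nonneg _)]
      have c2 : ‖ft g ξ‖ₑ ^ 2 = ENNReal.ofReal (‖ft g ξ‖ ^ 2) := by
        rw [← ofReal_norm, ENNReal.ofReal_pow (norm_nonneg _)]
      rw [c1, c2, ← ENNReal.ofReal_mul (by positivity)]
      exact ENNReal.ofReal_le_ofReal b1
    calc ENNReal.ofReal (C1 * Φ) * ‖ft h ξ‖ₑ ^ 2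
        ≤ ENNReal.ofReal (C1 * Φ) * (ENNReal.ofReal (C2 ^ 2 * M) * ‖ft g ξ‖ₑ ^ 2) := by gcongr
      _ = ENNReal.ofReal (C1 * C2 ^ 2 * (M * Φ)) * ‖ft g ξ‖ₑ ^ 2 := by
          rw [← mul_assoc, ← ENNReal.ofReal_mul (by positivity)]
          congr 2
          ring

end Pool.Agent.Helper29.EQ
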