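import Pool.Agent.Helper20.EQ.St4

/-!
# Project EQ, module NVC: numbers for large `t`
-/

set_option autoImplicit false

open MeasureTheory Set Filter Topology
open scoped ENNReal RealInnerProductSpace

namespace Pool.Agent.Helper29.EQ

open Pool.Agent.Helper68.LM (Pl BB Bd Av HL ft fm DQ)
open Pool.Agent.Helper20.RG Pool.Agent.Helper20.EQ

theorem zp4_NVC (z : ℤ) : (4 : ℝ) ^ z = (2 : ℝ) ^ (2 * (z : ℝ)) := by
  rw [Real.rpow_mul (by norm_num), Real.rpow_intCast]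
  norm_num

theorem zp2_NVC (z : ℤ) : (2 : ℝ) ^ z = (2 : ℝ) ^ (z : ℝ) := by
  rw [Real.rpow_intCast]

/-- the quotient `16 Cf Λ / η²` -/
theorem quo_NVC (Cf η : ℝ) (t u ρ : ℕ) (hη : η = (2 : ℝ) ^ (-((ρ : ℤ) + 2))) :
    16 * Cf * (4 : ℝ) ^ ((t : ℤ) - u - ρ) / η ^ 2 = 256 * Cf * (2 : ℝ) ^ (2 * ((t : ℝ) - u)) := by
  have h1 : η ^ 2 = (2 : ℝ) ^ (-(2 * ((ρ : ℝ) + 2))) := by
    rw [hη, zp2_NVC, ← Real.rpow_natCast, ← Real.rpow_mul (by norm_num)]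
    congr 1
    push_cast
    ring
  have h2 : (4 : ℝ) ^ ((t : ℤ) - u - ρ) = (2 : ℝ) ^ (2 * ((t : ℝ) - u - ρ)) := by
    rw [zp4_NVC]
    push_cast
    rfl
  have h3 : (2 : ℝ) ^ (2 * ((t : ℝ) - u - ρ)) =
      (2 : ℝ) ^ (-(2 * ((ρ : ℝ) + 2))) * ((2 : ℝ) ^ (2 * ((t : ℝ) - u)) * (2 : ℝ) ^ (4 : ℝ)) := by
    rw [← Real.rpow_add (by norm_num), ← Real.rpow_add (by norm_num)]
    congr 1
    ring
  have h4 : (2 : ℝ) ^ (4 : ℝ) = 16 := by
    rw [show (4 : ℝ) = ((4 : ℕ) : ℝ) by norm_num, Real.rpow_natCast]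
    norm_num
  have h5 : (0 : ℝ) < (2 : ℝ) ^ (-(2 * ((ρ : ℝ) + 2))) := by positivity
  rw [h1, h2, h3, h4]
  field_simp
  ring

theorem hNVC : StNVC := by
  intro Cf A p Cρ hCf hA hp2 hp3
  set D : ℝ := (3276800 * Cf + 200 * (1 + A) + 1000) * (2 * (3 * Cρ + 5)) with hD
  obtain ⟨n, hn⟩ := pow_unbounded_of_one_lt D (one_lt_two)
  refine ⟨2 * n, Cf + 1, by linarith, ?_⟩
  intro u v t ρ η m₁ K ht hNu hK0 hK
  obtain ⟨hu2, hv, hu, htu, hρ, hη, hm₁⟩ := hNu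
  have he : e1 p = (3 - p) / 100 := rfl
  have hd : dl p = (3 - p) / 2000 := rfl
  have he0 : 0 < e1 p := by rw [he]; linarith
  have he1 : e1 p ≤ 1 / 100 := by rw [he]; linarith
  have hd0 : 0 < dl p := by rw [hd]; linarith
  have hd1 : dl p ≤ 1 / 2000 := by rw [hd]; linarith
  have ht0 : (0 : ℝ) ≤ t := Nat.cast_nonneg _
  have hu0 : (2 : ℝ) ≤ u := by exact_mod_cast hu2
  have hCρ0 : (0 : ℝ) ≤ Cρ := Nat.cast_nonneg _
  have hρ0 : (0 : ℝ) ≤ ρ := Nat.cast_nonneg _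
  have hvR : (v : ℝ) = (Cρ + 1) * u := by rw [hv]; push_cast; ring
  have huv : (u : ℝ) ≤ v := by rw [hvR]; nlinarith
  have ht2u : (t : ℝ) ≤ 2 * u := by nlinarith
  have hv0 : (2 : ℝ) ≤ v := by linarith
  have hρR : (ρ : ℝ) ≤ Cρ * t := by exact_mod_cast hρ
  -- lower bound for `m₁`
  have hDt : D ≤ (2 : ℝ) ^ ((1 / 2 : ℝ) * t) := by
    have h1 : (n : ℝ) ≤ (1 / 2 : ℝ) * t := by
      have : ((2 * n : ℕ) : ℝ) ≤ t := by exact_mod_cast ht
      push_cast at this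
      linarith
    calc D ≤ (2 : ℝ) ^ n := hn.le
      _ = (2 : ℝ) ^ (n : ℝ) := (Real.rpow_natCast _ _).symm
      _ ≤ (2 : ℝ) ^ ((1 / 2 : ℝ) * t) := Real.rpow_le_rpow_of_exponent_le (by norm_num) h1
  have hdt1 : (1 : ℝ) ≤ (2 : ℝ) ^ (dl p * t) := Real.one_le_rpow (by norm_num) (by positivity)
  have h3v : 3 * (v : ℝ) + 2 ≤ (3 * Cρ + 5) * (2 : ℝ) ^ (dl p * t) := by
    have h1 : (v : ℝ) ≤ (Cρ + 1) * (2 : ℝ) ^ (dl p * t) := by
      rw [hvR]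
      exact mul_le_mul_of_nonneg_left hu (by positivity)
    nlinarith
  have big : ∀ c0 : ℝ, 0 ≤ c0 → c0 * (2 * (3 * Cρ + 5)) ≤ D → c0 * (2 : ℝ) ^ (2 * e1 p * t) ≤ m₁ := by
    intro c0 hc0 hc
    rw [hm₁, le_div_iff₀ (by positivity)]
    have h1 : (2 : ℝ) ^ ((1 / 2 : ℝ) * t) * ((2 : ℝ) ^ (2 * e1 p * t) * (2 : ℝ) ^ (dl p * t)) ≤
        (2 : ℝ) ^ ((1 - e1 p) * t) := by
      rw [← Real.rpow_add (by norm_num), ← Real.rpow_add (by norm_num)]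
      apply Real.rpow_le_rpow_of_exponent_le (by norm_num)
      have f1 : (1 / 2 + 2 * e1 p + dl p) * t ≤ (1 - e1 p) * t :=
        mul_le_mul_of_nonneg_right (by linarith) ht0
      linarith
    have h2 : (0 : ℝ) < (2 : ℝ) ^ (2 * e1 p * t) := by positivity
    have h3 : (0 : ℝ) < (2 : ℝ) ^ (dl p * t) := by positivity
    calc c0 * (2 : ℝ) ^ (2 * e1 p * t) * (2 * (3 * (v : ℝ) + 2))
        ≤ c0 * (2 : ℝ) ^ (2 * e1 p * t) * (2 * ((3 * Cρ + 5) * (2 : ℝ) ^ (dl p * t))) := by gcongr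
      _ = (c0 * (2 * (3 * Cρ + 5))) * ((2 : ℝ) ^ (2 * e1 p * t) * (2 : ℝ) ^ (dl p * t)) := by ring
      _ ≤ (2 : ℝ) ^ ((1 / 2 : ℝ) * t) * ((2 : ℝ) ^ (2 * e1 p * t) * (2 : ℝ) ^ (dl p * t)) := by
          apply mul_le_mul_of_nonneg_right (hc.trans hDt) (by positivity)
      _ ≤ _ := h1
  have h1e : (1 : ℝ) ≤ (2 : ℝ) ^ (2 * e1 p * t) := Real.one_le_rpow (by norm_num) (by positivity)
  have h5C : (0 : ℝ) < 2 * (3 * Cρ + 5) := by positivity
  have hq := quo_NVC Cf η t u ρ hη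
  refine ⟨?_, ?_, ?_, ?_, ?_, ?_⟩
  · have h := big 1000 (by norm_num) (by
      rw [hD]
      apply mul_le_mul_of_nonneg_right _ h5C.le
      nlinarith)
    linarith
  · rw [hq]
    have h := big (3276800 * Cf) (by positivity) (by
      rw [hD]
      apply mul_le_mul_of_nonneg_right _ h5C.le
      nlinarith)
    have h2 : (2 : ℝ) ^ (2 * ((t : ℝ) - u)) ≤ (2 : ℝ) ^ (2 * e1 p * t) := by
      apply Real.rpow_le_rpow_of_exponent_le (by norm_num)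
      nlinarith
    calc 200 * (64 * (256 * Cf * (2 : ℝ) ^ (2 * ((t : ℝ) - u))))
        = (3276800 * Cf) * (2 : ℝ) ^ (2 * ((t : ℝ) - u)) := by ring
      _ ≤ (3276800 * Cf) * (2 : ℝ) ^ (2 * e1 p * t) := by gcongr
      _ ≤ m₁ := h
  · rw [hη]
    apply zpow_le_zpow_right₀ (by norm_num)
    have h1 : (ρ : ℝ) + 2 ≤ 3 * v := by
      have : (ρ : ℝ) ≤ Cρ * (2 * u) := hρR.trans (mul_le_mul_of_nonneg_left ht2u hCρ0)
      rw [hvR]
      nlinarith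
    have h2 : ρ + 2 ≤ 3 * v := by exact_mod_cast h1
    omega
  · rw [hη]
    apply zpow_le_one_of_nonpos₀ (by norm_num)
    omega
  · have h := big (200 * (1 + A)) (by positivity) (by
      rw [hD]
      apply mul_le_mul_of_nonneg_right _ h5C.le
      nlinarith)
    have h2 : nv u v (3 * v + 1) A p ≤ 1 + A := by
      unfold nv
      have hp0 : 0 < p := by linarith
      have a1 : (2 : ℝ) ^ (3 * (v : ℝ)) ≤ (2 : ℝ) ^ (3 * v + 1 + 1) * (v : ℝ) := by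
        have b1 : (2 : ℝ) ^ (3 * (v : ℝ)) = (2 : ℝ) ^ (3 * v) := by
          rw [← Real.rpow_natCast]; push_cast; rfl
        rw [b1, pow_add, pow_add]
        have b2 : (0 : ℝ) < (2 : ℝ) ^ (3 * v) := by positivity
        nlinarith
      have a2 : ((2 : ℝ) ^ (3 * v + 1 + 1) * (v : ℝ)) ^ (-(1 / p)) ≤
          ((2 : ℝ) ^ (3 * (v : ℝ))) ^ (-(1 / p)) := by
        apply Real.rpow_le_rpow_of_nonpos (by positivity) a1
        have : 0 < 1 / p := by positivity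
        linarith
      have a3 : ((2 : ℝ) ^ (3 * (v : ℝ))) ^ (-(1 / p)) ≤ (2 : ℝ) ^ (-(u : ℝ)) := by
        rw [← Real.rpow_mul (by norm_num)]
        apply Real.rpow_le_rpow_of_exponent_le (by norm_num)
        have b1 : 1 / 3 ≤ 1 / p := one_div_le_one_div_of_le hp0 hp3.le
        have b2 : 1 / 3 * (3 * (v : ℝ)) ≤ 1 / p * (3 * (v : ℝ)) :=
          mul_le_mul_of_nonneg_right b1 (by linarith)
        linarith
      have a4 : (2 : ℝ) ^ u * (2 : ℝ) ^ (-(u : ℝ)) = 1 := by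
        rw [← Real.rpow_natCast, ← Real.rpow_add (by norm_num)]
        simp
      calc 1 + (2 : ℝ) ^ u * (A * ((2 : ℝ) ^ (3 * v + 1 + 1) * (v : ℝ)) ^ (-(1 / p)))
          ≤ 1 + (2 : ℝ) ^ u * (A * (2 : ℝ) ^ (-(u : ℝ))) := by
            gcongr
            exact a2.trans a3
        _ = 1 + A * ((2 : ℝ) ^ u * (2 : ℝ) ^ (-(u : ℝ))) := by ring
        _ = 1 + A := by rw [a4, mul_one]
    have h3 : 200 * (1 + A) ≤ 200 * (1 + A) * (2 : ℝ) ^ (2 * e1 p * t) :=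
      le_mul_of_one_le_right (by positivity) h1e
    linarith
  · rw [hq]
    have hCf0 : 0 < Cf := by linarith
    have hη' : η = (2 : ℝ) ^ (-((ρ : ℝ) + 2)) := by
      rw [hη, zp2_NVC]
      push_cast
      rfl
    have b1 : (4 / η) ^ 2 = 16 * (2 : ℝ) ^ (2 * ((ρ : ℝ) + 2)) := by
      have c1 : η ^ 2 = (2 : ℝ) ^ (-(2 * ((ρ : ℝ) + 2))) := by
        rw [hη', ← Real.rpow_natCast, ← Real.rpow_mul (by norm_num)]
        congr 1
        push_cast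
        ring
      rw [div_pow, c1, Real.rpow_neg (by norm_num), div_inv_eq_mul]
      norm_num
    have b2 : ((1 : ℝ) / 2) ^ (16 * v) = (2 : ℝ) ^ (-(16 * (v : ℝ))) := by
      rw [Real.rpow_neg (by norm_num), one_div, inv_pow, ← Real.rpow_natCast]
      push_cast
      rfl
    have b3 : K + v + 1 ≤ (Cf + 1) * (2 : ℝ) ^ (3 * (v : ℝ)) := by
      have c1 : (2 : ℝ) ^ (p * u) ≤ (2 : ℝ) ^ (3 * (v : ℝ)) := by
        apply Real.rpow_le_rpow_of_exponent_le (by norm_num)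
        exact mul_le_mul hp3.le huv (by linarith) (by norm_num)
      have c2 : (v : ℝ) + 1 ≤ (2 : ℝ) ^ (3 * (v : ℝ)) := by
        have d1 : v + 1 ≤ 2 ^ v := Nat.lt_two_pow_self
        have d2 : ((v : ℝ) + 1) ≤ (2 : ℝ) ^ v := by exact_mod_cast d1
        refine d2.trans ?_
        rw [← Real.rpow_natCast]
        apply Real.rpow_le_rpow_of_exponent_le (by norm_num)
        linarith
      have c3 : Cf * (2 : ℝ) ^ (p * u) ≤ Cf * (2 : ℝ) ^ (3 * (v : ℝ)) :=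
        mul_le_mul_of_nonneg_left c1 hCf0.le
      linarith
    have b4 : (0 : ℝ) < (2 : ℝ) ^ (2 * ((t : ℝ) - u)) := by positivity
    have b5 : (2 : ℝ) ^ (2 * ((ρ : ℝ) + 2)) = 16 * (2 : ℝ) ^ (2 * (ρ : ℝ)) := by
      have c1 : (2 : ℝ) ^ (2 * ((ρ : ℝ) + 2)) = (2 : ℝ) ^ (2 * (ρ : ℝ)) * (2 : ℝ) ^ (4 : ℝ) := by
        rw [← Real.rpow_add (by norm_num)]
        congr 1
        ring
      have c2 : (2 : ℝ) ^ (4 : ℝ) = 16 := by
        rw [show (4 : ℝ) = ((4 : ℕ) : ℝ) by norm_num, Real.rpow_natCast]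
        norm_num
      rw [c1, c2]
      ring
    have b6 : (2 : ℝ) ^ (-(16 * (v : ℝ))) / (256 * Cf * (2 : ℝ) ^ (2 * ((t : ℝ) - u))) *
        ((4 / η) ^ 2 * (Cf * (K + v + 1))) =
        (2 : ℝ) ^ (-(16 * (v : ℝ))) * (2 : ℝ) ^ (-(2 * ((t : ℝ) - u))) * (2 : ℝ) ^ (2 * (ρ : ℝ)) *
          (K + v + 1) := by
      rw [b1, b5, Real.rpow_neg (by norm_num) (2 * ((t : ℝ) - u))]
      field_simp
      ring
    rw [b2, b6]
    calc (2 : ℝ) ^ (-(16 * (v : ℝ))) * (2 : ℝ) ^ (-(2 * ((t : ℝ) - u))) * (2 : ℝ) ^ (2 * (ρ : ℝ)) *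
          (K + v + 1)
        ≤ (2 : ℝ) ^ (-(16 * (v : ℝ))) * (2 : ℝ) ^ (-(2 * ((t : ℝ) - u))) * (2 : ℝ) ^ (2 * (ρ : ℝ)) *
          ((Cf + 1) * (2 : ℝ) ^ (3 * (v : ℝ))) := by gcongr
      _ = (Cf + 1) * (2 : ℝ) ^ (-(16 * (v : ℝ)) + -(2 * ((t : ℝ) - u)) + 2 * (ρ : ℝ) +
          3 * (v : ℝ)) := by
          rw [Real.rpow_add (by norm_num), Real.rpow_add (by norm_num),
            Real.rpow_add (by norm_num)]
          ring
      _ ≤ (Cf + 1) * (2 : ℝ) ^ tg p u t ρ := by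
          apply mul_le_mul_of_nonneg_left _ (by linarith)
          apply Real.rpow_le_rpow_of_exponent_le (by norm_num)
          unfold tg
          have d1 : 0 ≤ (p - 2) * u := mul_nonneg (by linarith) (by linarith)
          have d2 : 0 ≤ (p - 2) * ρ := mul_nonneg (by linarith) hρ0
          have d3 : (p - 2 + e1 p) * t ≤ 2 * t := mul_le_mul_of_nonneg_right (by linarith) ht0
          have d4 : p * (u : ℝ) - p * ((t : ℝ) - ρ) - e1 p * t = (p - 2) * u + (p - 2) * ρ -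
              (p - 2 + e1 p) * t + 2 * u + 2 * ρ - 2 * t := by ring
          rw [d4]
          linarith

end Pool.Agent.Helper29.EQ
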