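import Pool.Agent.Helper20.EQ.St3

/-!
# Project EQ, module RIX: change of the index of summation
-/

set_option autoImplicit false

open MeasureTheory Set Filter Topology
open scoped ENNReal RealInnerProductSpace

namespace Pool.Agent.Helper29.EQ

open Pool.Agent.Helper68.LM (Pl BB Bd Av HL ft fm DQ)
open Pool.Agent.Helper20.RG Pool.Agent.Helper20.EQ

theorem hRIX (hGDL : StGDL) : StRIX := by
  obtain ⟨h1, -, h3⟩ := hGDL
  intro p B X hp hB hX f t ρ hf hf0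
  have e1 : ∀ l : ℤ, ENNReal.ofReal ((2 : ℝ) ^ (p * l)) * ∑' u : ℕ, X u (lev f (l - t + u + ρ)) =
      ∑' u : ℕ, ENNReal.ofReal ((2 : ℝ) ^ (p * l)) * X u (lev f (l - t + u + ρ)) := fun l =>
    ENNReal.tsum_mul_left.symm
  have e2 : ∀ u : ℕ, ∑' l : ℤ, ENNReal.ofReal ((2 : ℝ) ^ (p * l)) * X u (lev f (l - t + u + ρ)) =
      ∑' j : ℤ, ENNReal.ofReal ((2 : ℝ) ^ (p * (t - ρ))) * (ENNReal.ofReal ((2 : ℝ) ^ (p * j)) *
        (ENNReal.ofReal ((2 : ℝ) ^ (-(p * u))) * X u (lev f j))) := by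
    intro u
    rw [← (Equiv.addRight (t - u - ρ : ℤ)).tsum_eq
      (fun l : ℤ => ENNReal.ofReal ((2 : ℝ) ^ (p * l)) * X u (lev f (l - t + u + ρ)))]
    refine tsum_congr fun j => ?_
    have a1 : (Equiv.addRight (t - u - ρ : ℤ)) j = j + (t - u - ρ) := rfl
    rw [a1]
    have a2 : j + (t - (u : ℤ) - (ρ : ℤ)) - t + u + ρ = j := by ring
    rw [a2]
    have a3 : ENNReal.ofReal ((2 : ℝ) ^ (p * ((j + (t - (u : ℤ) - (ρ : ℤ)) : ℤ) : ℝ))) =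
        ENNReal.ofReal ((2 : ℝ) ^ (p * (t - ρ))) * (ENNReal.ofReal ((2 : ℝ) ^ (p * j)) *
          ENNReal.ofReal ((2 : ℝ) ^ (-(p * u)))) := by
      rw [← ENNReal.ofReal_mul (by positivity), ← ENNReal.ofReal_mul (by positivity),
        ← Real.rpow_add (by norm_num), ← Real.rpow_add (by norm_num)]
      congr 2
      push_cast
      ring
    rw [a3]
    ring
  have e3 : ∑' l : ℤ, ENNReal.ofReal ((2 : ℝ) ^ (p * l)) * ∑' u : ℕ, X u (lev f (l - t + u + ρ)) =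
      ENNReal.ofReal ((2 : ℝ) ^ (p * (t - ρ))) * ∑' j : ℤ, ENNReal.ofReal ((2 : ℝ) ^ (p * j)) *
        ∑' u : ℕ, ENNReal.ofReal ((2 : ℝ) ^ (-(p * u))) * X u (lev f j) := by
    rw [tsum_congr e1, ENNReal.tsum_comm, tsum_congr e2, ENNReal.tsum_comm, ← ENNReal.tsum_mul_left]
    refine tsum_congr fun j => ?_
    rw [ENNReal.tsum_mul_left, ENNReal.tsum_mul_left]
  rw [e3]
  have e4 : ∑' j : ℤ, ENNReal.ofReal ((2 : ℝ) ^ (p * j)) *
        ∑' u : ℕ, ENNReal.ofReal ((2 : ℝ) ^ (-(p * u))) * X u (lev f j) ≤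
      ∑' j : ℤ, ENNReal.ofReal B * (ENNReal.ofReal ((2 : ℝ) ^ (p * j)) * ∫⁻ x, ‖lev f j x‖ₑ ^ 2) := by
    refine ENNReal.tsum_le_tsum fun j => ?_
    have b1 := hX (lev f j) (h1 f j hf hf0).1 (h1 f j hf hf0).2
    calc ENNReal.ofReal ((2 : ℝ) ^ (p * j)) *
          ∑' u : ℕ, ENNReal.ofReal ((2 : ℝ) ^ (-(p * u))) * X u (lev f j)
        ≤ ENNReal.ofReal ((2 : ℝ) ^ (p * j)) * (ENNReal.ofReal B * ∫⁻ x, ‖lev f j x‖ₑ ^ 2) := by
          gcongr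
      _ = ENNReal.ofReal B * (ENNReal.ofReal ((2 : ℝ) ^ (p * j)) * ∫⁻ x, ‖lev f j x‖ₑ ^ 2) := by
          ring
  have e5 := h3 p f hp hf hf0
  calc ENNReal.ofReal ((2 : ℝ) ^ (p * (t - ρ))) * ∑' j : ℤ, ENNReal.ofReal ((2 : ℝ) ^ (p * j)) *
        ∑' u : ℕ, ENNReal.ofReal ((2 : ℝ) ^ (-(p * u))) * X u (lev f j)
      ≤ ENNReal.ofReal ((2 : ℝ) ^ (p * (t - ρ))) * (ENNReal.ofReal B *
          ∑' j : ℤ, (ENNReal.ofReal ((2 : ℝ) ^ (p * j)) * ∫⁻ x, ‖lev f j x‖ₑ ^ 2)) := by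
        rw [ENNReal.tsum_mul_left] at e4
        gcongr
    _ ≤ ENNReal.ofReal ((2 : ℝ) ^ (p * (t - ρ))) * (ENNReal.ofReal B *
          ∫⁻ x, ENNReal.ofReal (f x) ^ p) := by gcongr
    _ = ENNReal.ofReal ((2 : ℝ) ^ (p * (t - ρ)) * B) * ∫⁻ x, ENNReal.ofReal (f x) ^ p := by
        rw [ENNReal.ofReal_mul (by positivity), mul_assoc]

end Pool.Agent.Helper29.EQ
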